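import Pool.Agent.Helper68.Dom.Defs

/-!
# Project DOM (MP_18808e_co): goals

Paper: team-store `helper68_DOM_paper.md`. Every goal is a `Prop`; deliver
`theorem gNAME : Goals.NAME` (with earlier goals as hypotheses where the docstring says so) in
`Pool/Agent/<Seat>/Dom/NAME.lean`.

Conventions: `Conn G S` closed-set connectivity (Helper58, Basic.lean), `IsComp`, `Touch`,
`HasK5`, `HasK33`, `Pl`, `Low`, `Rest`, `Setting`, `PSet` from Defs.lean; K33 are produced with
`hasK33_sets`, K5 with `hasK5_sets`.
-/

namespace NApexGraphs.Dom.Goals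

open SimpleGraph NApexGraphs NApexGraphs.Dom

/-- **LEMD** (Dirac type lemma). `W` finite, `a, b ∈ W` equal or adjacent, some further vertex in
`W`, and every `v ∈ W` other than `a, b` has three different neighbours in `W`. Then `K₄` is a
minor inside `W`.

Proof. Induction on `W.card` (for all `Q a b` at once); suppose no `K₄` in `W`; all
neighbourhoods are taken in `W`; `C = W \ {a, b}`.
(I) Let `v ∈ C`, `w ∈ W`, `v ~ w`. Contract `v` into `w`: let `Q'` be `Q` plus all edges `w z`
with `z ∈ N(v)`, `z ≠ w`, and `W' = W.erase v`. A `K₄` model of `Q'` in `W'` gives one of `Q` in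
`W` (add `v` to the branch set containing `w`, if there is one; otherwise it is a model of `Q`).
`W' \ {a, b}` is not empty, as `v` has three neighbours. So by induction some `z ∈ W' \ {a, b}`
has at most two neighbours in `W'` with respect to `Q'`. If `z ≠ w`, then `z ~ v`, `z ~ w` and `z`
has exactly three neighbours. If `z = w` then `N(v) \ {w}` and `N(w) \ {v}` have at least two
elements and their union has at most two, so `N(v) = {w, s, t}`, `N(w) = {v, s, t}`, `s ≠ t`.
(II) `v, w ∈ C`, `N(v) = {w, s, t}`, `N(w) = {v, s, t}`, `s ≠ t` is impossible: let `K_t` be the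
component of `t` in `W \ {v, w}` (`exists_comp`). If `s ∈ K_t`, let `S` be the component of `s` in
`K_t \ {t}`; `S` touches `t` because `K_t` is connected; `{v}, {w}, S, {t}` is a `K₄` model.
Otherwise the components `K_s` and `K_t` are different; `a, b ∈ W \ {v, w}` are equal or adjacent,
hence lie in the same component, so one of the two, say `K_t`, contains neither `a` nor `b`. The
vertices `y ≠ t` of `K_t` have no neighbours outside of `K_t`. If `K_t = {t}` then `N(t) ⊆ {v, w}`,
but `t ∈ C` has three neighbours. Otherwise use the induction hypothesis for `K_t` with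
`a = b = t`.
(III) Take `v ∈ C` and a neighbour `w`. By (I), (II) there is `z ∈ C` with `N(z) = {v, w, t}` and
`v ~ w`. By (I), (II) for the edge `z t` there is `z' ∈ C` adjacent to `z` and `t` with exactly
three neighbours; `z' ∈ N(z) \ {t}`, so `z' = v` or `z' = w`; if `z' = v`, then
`N(v) = {z, w, t}`, `N(z) = {v, w, t}`, contradiction to (II) for the pair `z, v`; the case
`z' = w` is the same. -/
def LEMD : Prop :=
  ∀ (V : Type) [Finite V] (Q : SimpleGraph V) (W : Finset V) (a b : V), a ∈ W → b ∈ W →
    (a = b ∨ Q.Adj a b) → (∃ v ∈ W, v ≠ a ∧ v ≠ b) →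
    (∀ v ∈ W, v ≠ a → v ≠ b → ¬ Low Q (W : Set V) v) → HasK4 Q (W : Set V)

/-- **LOWV**. `u` is adjacent to all of `O`, `x` is adjacent to `a, b ∈ O` (`a = b` allowed),
`C ⊆ O` has no neighbours in `O` outside of `C ∪ {a, b}`; no `K₅`. Then some vertex of `C` has at
most two neighbours in `O`. (Hypothesis: LEMD.)

Proof. Suppose not. `W = C ∪ {a, b}`, `Q = G` plus the edge `ab` (if `a ≠ b`), for instance
`Q = G ⊔ SimpleGraph.edge a b` or `fromRel`. Every `v ∈ C` has three different neighbours in `O`,
all of them in `W`. So LEMD gives a `K₄` model `B` of `Q` in `W`. Let `B' k = B k` if `a ∉ B k` and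
`B' k = B k ∪ {x}` if `a ∈ B k`. Then `B'` is a `K₄` model of `G`: the edge `ab` inside a branch set
or between two branch sets is replaced by the path `a x b` (`x ~ a`, `x ~ b`; if `a = b` there is
nothing to do). `u` is adjacent to a vertex of `B k ⊆ O` for every `k`. So `B'` and `{u}` are a
`K₅` model in `Z` (note `x ∉ O`, `u ∉ O`, `u ≠ x`). -/
def LOWV : Prop :=
  ∀ (V : Type) [Finite V] (G : SimpleGraph V) (Z O C : Set V) (u x a b : V), ¬ HasK5 G Z →
    u ∈ Z → x ∈ Z → O ⊆ Z → u ∉ O → x ∉ O → u ≠ x → (∀ v ∈ O, G.Adj u v) →
    a ∈ O → b ∈ O → a ∉ C → b ∉ C → G.Adj x a → G.Adj x b → C ⊆ O → C.Nonempty →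
    (∀ v ∈ C, ∀ y ∈ O, G.Adj v y → y ∈ C ∨ y = a ∨ y = b) → ∃ r ∈ C, Low G O r

/-- **BRANCH** (branching lemma). `S ∋ p` connected, `E`, `F` connected, pairwise disjoint, `S`
touches `E` and `F`. Then either `E`, `F` can be enlarged inside `S \ {p}` such that both touch `p`,
or there are a vertex `y ∈ S` and a connected set `T ⊆ S` containing `p` and enlargements of `E`
and `F` inside `S`, such that `y` touches all three.

Proof. Induction on the number of elements of `S` (for all `E`, `F`). If `S = {p}`: first case
with `E`, `F`. Otherwise take a maximal connected proper subset `T` of `S` containing `p`; `S` has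
an edge from `T` to some `y ∈ S \ T`, `T ∪ {y}` is connected, so `S = T ∪ {y}`. If `T` touches
both: induction with `T`, `E`, `F`. If `T` touches `E` but not `F`: `y` touches `F` and `T`;
induction with `T`, `E`, `F ∪ {y}`. The same with `E`, `F` exchanged. If `T` touches neither: `y`
touches `E`, `F` and `T`: second case with `E' = E`, `F' = F`. -/
def BRANCH : Prop :=
  ∀ (V : Type) [Finite V] (G : SimpleGraph V) (S E F : Set V) (p : V), Conn G S → p ∈ S →
    Conn G E → Conn G F → Disjoint S E → Disjoint S F → Disjoint E F → Touch G S E →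
    Touch G S F →
    (∃ E' F' : Set V, E ⊆ E' ∧ F ⊆ F' ∧ Conn G E' ∧ Conn G F' ∧ Disjoint E' F' ∧
      E' ⊆ (E ∪ S) \ {p} ∧ F' ⊆ (F ∪ S) \ {p} ∧ Touch G E' {p} ∧ Touch G F' {p}) ∨
    (∃ (E' F' T : Set V) (y : V), E ⊆ E' ∧ F ⊆ F' ∧ Conn G E' ∧ Conn G F' ∧ Conn G T ∧ p ∈ T ∧
      y ∈ S ∧ y ∉ T ∧ y ∉ E' ∧ y ∉ F' ∧ Disjoint E' F' ∧ Disjoint E' T ∧ Disjoint F' T ∧
      E' ⊆ E ∪ S ∧ F' ⊆ F ∪ S ∧ T ⊆ S ∧ Touch G E' {y} ∧ Touch G F' {y} ∧ Touch G T {y})

/-- **MODX**. In `Z` the vertex `x` has only the neighbours `u, p, q` (some may coincide or be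
missing) and `u ~ p`, `u ~ q`; `Z` is planar without the edge `ux` but not with it. Then there are
`E, F, P, Q` as below.

Proof. Take a model `B` (of `K5` or `K33`) of `G` in `Z`. (1) If `x` is in no branch set, it is a
model of `G - ux` (`IsModel.deleteEdge_of_notMem`, note `s(u,x) = s(x,u)`), contradiction.
(2) `x ∈ B k`, `B k ≠ {x}`. If `u ∈ B k`: replace `B k` by `B k \ {x}`; it is connected, because a
subset `A` of it which is closed under neighbours in it and contains one of the neighbours `u, p,
q` of `x` contains `u` (as `u ~ p, q`) and then all neighbours of `x` in `B k`; an edge from `x` to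
`B l` goes to `p` or `q` and may be replaced by the edge from `u`. So we get a model which does not
contain `x`: case (1). If `u ∉ B k`: `B k` is connected and contains another vertex, so it
contains `p` or `q`; the model is a model of `G - ux`, because the edge `xu` between `B k` and `B l`
may be replaced by `pu` or `qu`. Contradiction.
(3) `B k = {x}`. For every neighbour `l` of `k` in `K5` (`K33`), `B l` contains `u`, `p` or `q`
(`card_meet_le`: at most three such `l`). So it is a `K33`, and the three sets opposite to `k`
contain `u`, `p`, `q` in some order (bijectively). `E`, `F` are the other two sets on the side of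
`k`; `P ∋ p`, `Q ∋ q` two of the opposite ones. (If `p = q` this is impossible, fine.) -/
def MODX : Prop :=
  ∀ (V : Type) (G : SimpleGraph V) (Z : Set V) (u x p q : V), u ≠ x → p ≠ x → q ≠ x →
    G.Adj u p → G.Adj u q → (∀ z ∈ Z, G.Adj x z → z = u ∨ z = p ∨ z = q) →
    Pl (G.deleteEdges {s(u, x)}) Z → ¬ Pl G Z →
    ∃ E F P Q : Set V, (∀ S ∈ [E, F, P, Q], Conn G S) ∧ [E, F, P, Q].Pairwise Disjoint ∧
      (∀ S ∈ [E, F, P, Q], S ⊆ Z ∧ u ∉ S ∧ x ∉ S) ∧ p ∈ P ∧ q ∈ Q ∧
      Touch G E P ∧ Touch G E Q ∧ Touch G F P ∧ Touch G F Q

/-- **COMPS** (B1 of the paper). (Hypotheses: BRANCH, MODX.)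

Proof. Let `G' = G - ux`. Sets avoiding `u` (or avoiding `x`) are connected in `G'` iff in `G`, and
`Touch` is the same if not both of `u`, `x` are involved. Take `E, F, P, Q` from MODX. BRANCH for
`S = P`, `p`: in the second case `{E', F', T ∪ {x}}` versus `{{y}, Q, {u}}` is a `K33` of `G'` in `Z`
(`x ~ p ∈ T`, `x ~ q ∈ Q`, `u` is adjacent to everything but `x` in `G'`), contradiction. So we may
assume that `E`, `F` (enlarged, inside `E ∪ F ∪ P \ {p}`, still disjoint from `Q`) touch `p` and `Q`.
BRANCH for `S = Q`, `q`: second case: `{E', F', T ∪ {x}}` versus `{{y}, {p}, {u}}`, contradiction.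
So `E`, `F` are connected, disjoint, contained in `Z \ {u, x, p, q}` and touch `p` and `q`. Let `C1` be
the component of `E` in `(Z \ {u, x, p, q}) \ F`. If `C1` touches `F`: `{C1, F, {p, x}, {q}, {u}}` is a
`K5` of `G'` in `Z`, contradiction. So `C1` is a component of `Z \ {u, x, p, q}`. Let `C2` be the
component of `F` in `Z \ {u, x, p, q}`; it is disjoint from `C1` (`C1` is closed and `F` is not
in `C1`). -/
def COMPS : Prop :=
  ∀ (V : Type) [Finite V] (G : SimpleGraph V) (Z : Set V) (u x p q : V), u ∈ Z → x ∈ Z →
    p ∈ Z → q ∈ Z → u ≠ x → p ≠ x → q ≠ x → p ≠ u → q ≠ u → p ≠ q →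
    (∀ v, v ≠ u → G.Adj u v) → G.Adj x p → G.Adj x q →
    (∀ z ∈ Z, G.Adj x z → z = u ∨ z = p ∨ z = q) →
    Pl (G.deleteEdges {s(u, x)}) Z → ¬ Pl G Z →
    ∃ C1 C2 : Set V, IsComp G (Z \ {u, x, p, q}) C1 ∧ IsComp G (Z \ {u, x, p, q}) C2 ∧
      Disjoint C1 C2 ∧ Touch G C1 {p} ∧ Touch G C1 {q} ∧ Touch G C2 {p} ∧ Touch G C2 {q}

/-- **SETG**. A minor-minimal non-`n`-apex graph with a dominating vertex satisfies `Setting`.

Proof. `non`: `pl_iff` and the definition of `NApex`. `del`: `G - ux` is isomorphic to a graph `H` on
`Fin m` (`m` the number of vertices); `H` is a minor of `G` (`isMinor_of_injective`) and not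
isomorphic to `G` (it has fewer edges: an isomorphism would give an injection of the finite edge
set of `G` onto a proper subset; or use `Nat.card` of the edge sets), so it is `n`-apex; transport
back with `NApex.of_isMinor` and `IsMinor.of_iso`. -/
def SETG : Prop :=
  ∀ (V : Type) [Finite V] (G : SimpleGraph V) (n : ℕ) (u : V), MinMinimal n G →
    (∀ v, v ≠ u → G.Adj u v) → Setting G n u

/-- **PSETS** (section 1, facts (1), (2)).

Proof. `X` from `Setting.del`. If `u ∈ X` or `x ∈ X` then `G - ux` and `G` agree inside the complement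
of `X`, so `G` is planar there, contradiction to `non`. If `X.card < n` then `insert x X` contradicts
`non`. Let `s ∈ X` not adjacent to `x`, and `X' = insert u (X.erase s)`, of cardinality `n`. A `K5`
or `K33` model of `G` in the complement of `X'` is mapped by `s ↦ u`, identity elsewhere, to a model
of `G - ux` in the complement of `X` (`u` is adjacent to everything except `x` in `G - ux`, and `s`
is not adjacent to `x`): contradiction to `non`. (Use `IsModel.comp` with singletons, or map the
branch sets by the injection.) -/
def PSETS : Prop :=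
  ∀ (V : Type) [Finite V] (G : SimpleGraph V) (n : ℕ) (u x : V), Setting G n u → x ≠ u →
    ∃ X : Finset V, PSet G n u x X

/-- **TWO** (fact (3)): `x` has at least two neighbours in the rest. (Hypothesis: MODX.)

Proof. Otherwise there is `p ≠ u, x` such that all neighbours of `x` in `Z = Xᶜ` are `u` or `p`
(`p` the only neighbour in the rest; if there is none, any vertex `p ≠ u, x`; if there is no such
vertex then `G` has at most two vertices and is planar, contradiction to `non`). Apply MODX with
`q = p`: `P` and `Q` are disjoint and both contain `p`. -/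
def TWO : Prop :=
  ∀ (V : Type) [Finite V] (G : SimpleGraph V) (n : ℕ) (u x : V) (X : Finset V), Setting G n u →
    x ≠ u → PSet G n u x X → ∃ p q, p ≠ q ∧ p ∈ Rest u x X ∧ q ∈ Rest u x X ∧
      G.Adj x p ∧ G.Adj x q

/-- **DEG3**. (Hypotheses: PSETS, TWO.) Proof. The neighbours include `u`, `X`, `p`, `q`. -/
def DEG3 : Prop :=
  ∀ (V : Type) [Finite V] (G : SimpleGraph V) (n : ℕ) (u x : V), Setting G n u → x ≠ u →
    n + 3 ≤ (G.neighborSet x).ncard

/-- **CASEA** (section 2). (Hypotheses: PSETS, TWO, LOWV.)

Proof. It is enough that every `x ≠ u` is adjacent to every `w ≠ x`. Let `X` be the `PSet` of `x`,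
`O = Rest u x X`, `Z = Xᶜ`, `G' = G - ux`. `x` is adjacent to `u` and to all of `X`. Suppose `w ∈ O` is not
adjacent to `x`. Every non-neighbour `v ∈ O` of `x` is not `Low G O`: its neighbours are in
`X ∪ {u} ∪ O`, at most `n + 1` of them outside of `O`, so at least three in `O`. Let `C` be the
component of `w` in `{v ∈ O | ¬ x ~ v}` (`exists_comp`), and `A = {y ∈ O \ C | y has a neighbour in
C}`; all elements of `A` are adjacent to `x`. If `A` has three different elements `a, b, c`:
`{C, {x}, {u}}` versus `{{a}, {b}, {c}}` is a `K33` of `G'` in `Z`. Otherwise `A ⊆ {a, b}` with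
`a, b ∈ O \ C` adjacent to `x` (if `A` is too small take the vertices of TWO, which are adjacent to
`x`, hence not in `C`), and LOWV for `G'`, `Z`, `O`, `C` gives `r ∈ C` with `Low G' O r`, that is
`Low G O r` (inside `O` the graphs agree), contradiction. -/
def CASEA : Prop :=
  ∀ (V : Type) [Finite V] (G : SimpleGraph V) (n : ℕ) (u : V), Setting G n u →
    (∀ x, x ≠ u → n + 4 ≤ (G.neighborSet x).ncard) → ∀ x y, x ≠ y → G.Adj x y

/-- the configuration of case B: `N(x) = X ∪ {u, p, q}`. -/
structure XConf {V : Type} (G : SimpleGraph V) (n : ℕ) (u x p q : V) (X : Finset V) : Prop where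
  set : Setting G n u
  ps : PSet G n u x X
  xu : x ≠ u
  pq : p ≠ q
  hp : p ∈ Rest u x X
  hq : q ∈ Rest u x X
  nx : ∀ z, G.Adj x z ↔ z ∈ X ∨ z = u ∨ z = p ∨ z = q

/-- `r` is a low vertex of the rest: `N(r) = X ∪ {u, c, d}` -/
def LowN {V : Type} (G : SimpleGraph V) (u x : V) (X : Finset V) (r c d : V) : Prop :=
  c ≠ d ∧ c ∈ Rest u x X ∧ d ∈ Rest u x X ∧ ∀ z, G.Adj r z ↔ z ∈ X ∨ z = u ∨ z = c ∨ z = d

/-- **XCON**. (Hypotheses: PSETS, TWO.) Proof. `X`, `p`, `q` from PSETS, TWO; the `n + 3` elements of
`X ∪ {u, p, q}` are all neighbours of `x`. -/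
def XCON : Prop :=
  ∀ (V : Type) [Finite V] (G : SimpleGraph V) (n : ℕ) (u x : V), Setting G n u → x ≠ u →
    (G.neighborSet x).ncard ≤ n + 3 → ∃ (X : Finset V) (p q : V), XConf G n u x p q X

/-- **LOWN** (B2). (Hypotheses: LOWV, DEG3.)

Proof. `O = Rest u x X`, `C` a component of `O \ {p, q}`. LOWV for `G' = G - ux`, `Z = Xᶜ`, `O`, `C`,
`a = p`, `b = q` gives `r ∈ C` with `Low G' O r`, so `Low G O r`. `r` is not adjacent to `x` (`nx`), so
its neighbours are `u`, elements of `X` and at most two elements of `O`; by DEG3 there are at least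
`n + 3`, so all of `X`, `u` and exactly two elements `c ≠ d` of `O`. -/
def LOWN : Prop :=
  ∀ (V : Type) [Finite V] (G : SimpleGraph V) (n : ℕ) (u x p q : V) (X : Finset V),
    XConf G n u x p q X → ∀ C, IsComp G (Rest u x X \ {p, q}) C →
    ∃ r ∈ C, ∃ c d, LowN G u x X r c d

/-- the two components, each with a vertex adjacent to all of `X` -/
structure CConf {V : Type} (G : SimpleGraph V) (n : ℕ) (u x p q : V) (X : Finset V)
    (C1 C2 : Set V) (r1 r2 : V) : Prop where
  xc : XConf G n u x p q X
  c1 : IsComp G (Rest u x X \ {p, q}) C1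
  c2 : IsComp G (Rest u x X \ {p, q}) C2
  dis : Disjoint C1 C2
  t1p : Touch G C1 {p}
  t1q : Touch G C1 {q}
  t2p : Touch G C2 {p}
  t2q : Touch G C2 {q}
  h1 : r1 ∈ C1
  h2 : r2 ∈ C2
  s1 : ∀ s ∈ X, G.Adj r1 s
  s2 : ∀ s ∈ X, G.Adj r2 s

/-- **THIRD** (B3). (Hypothesis: PSETS.)

Proof. Suppose `r ∉ C1`, `r ∉ C2`; then `c, d ∉ C1 ∪ C2` (closedness: `r` is in `O \ {p, q}` and adjacent
to `c`, `d`). Let `Y` be the `PSet` of `r` (`PSET`s are for the edge `ur`): `Y` has `n` elements, all
adjacent to `r` and different from `u`, so `Y ⊆ X ∪ {c, d}` and `Y` misses exactly two elements of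
the `n + 2` elements of `X ∪ {c, d}`. `G - ur` is planar in the complement of `Y`.
(a) `Y` misses `c, d`, so `Y = X`: `{u, p, q}` versus `{x, C1, C2}`.
(b) `Y` misses `s ∈ X` and one of `c, d`, so `Y = X - s + d'` with `d' ∈ {c, d}`: choose
`e ∈ {p, q}`, `e ≠ d'`; `{u, s, e}` versus `{x, C1, C2}` (`s ~ x, r1, r2`).
(c) `Y` misses `s ≠ s'` in `X`: `{u, s, s'}` versus `{x, C1, C2}`.
All three are `K33`s of `G - ur` in the complement of `Y` (`u` is adjacent to everything; the edge
`ur` is not used since `r ∉ {x} ∪ C1 ∪ C2`): contradiction. -/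
def THIRD : Prop :=
  ∀ (V : Type) [Finite V] (G : SimpleGraph V) (n : ℕ) (u x p q : V) (X : Finset V)
    (C1 C2 : Set V) (r1 r2 : V), CConf G n u x p q X C1 C2 r1 r2 →
    ∀ r c d, r ∈ Rest u x X \ {p, q} → LowN G u x X r c d → r ∈ C1 ∨ r ∈ C2

/-- **SING** (B4). (Hypothesis: PSETS.)

Proof. `r = r1`. `c, d ∈ C1 ∪ {p, q}` (component). `Y` = the `PSet` of `r`; as in THIRD `Y ⊆ X ∪ {c, d}`
misses exactly two elements of `X ∪ {c, d}`. All `K33`s are in `G - ur` and avoid `Y`.
(a) `Y = X`: if `C1 ≠ {r}`: `{u, p, q}` versus `{x, C1, C2}` (`u` touches `C1 \ {r}`), contradiction. So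
`C1 = {r}`, and `c, d ∈ {p, q}`.
(b) `Y = X - s + d'`, `{c, d} = {c', d'}`: if `d' ∉ {p, q}`: `{x, C2, u}` versus `{p, q, s}`,
contradiction (`d' ∈ C1` is not in `C2`). So `d' ∈ {p, q}`; let `e` be the other one. If `c' = e`,
then `{c, d} = {p, q}`, and since `r` has no neighbour in `C1` and `C1` is connected, `C1 = {r}`.
Otherwise `c' ∈ C1`, the only neighbour of `r` in `C1`, so `C1 \ {r}` is connected, contains `c'`, and
touches `e` (`C1` touches `e`, `r` is not adjacent to `e`): `{{s, r}, {e}, {u}}` versus
`{{x}, C2, C1 \ {r}}`, contradiction (`{s, r}` is connected, `s ~ x`, `s ~ r2`, `r ~ c'`).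
(c) `Y = X - s - s' + c + d`: if `e ∈ {p, q}`, `e ∉ {c, d}`: `{x, C2, u}` versus `{s, s', e}`,
contradiction. So `{p, q} = {c, d}` and `C1 = {r}` as in (b). -/
def SING : Prop :=
  ∀ (V : Type) [Finite V] (G : SimpleGraph V) (n : ℕ) (u x p q : V) (X : Finset V)
    (C1 C2 : Set V) (r1 r2 : V), CConf G n u x p q X C1 C2 r1 r2 →
    ∀ c d, LowN G u x X r1 c d → C1 = {r1} ∧ ((c = p ∧ d = q) ∨ (c = q ∧ d = p))

/-- the final structure of case B: `V = X ∪ {p, q, u} ∪ {x, y, z}`, and `x, y, z` have the
neighbourhood `X ∪ {p, q, u}`; `N = X ∪ {p, q}`. -/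
structure Final {V : Type} (G : SimpleGraph V) (n : ℕ) (u x y z : V) (N : Finset V) : Prop where
  card : N.card = n + 2
  xy : x ≠ y
  xz : x ≠ z
  yz : y ≠ z
  ux : u ≠ x
  uy : u ≠ y
  uz : u ≠ z
  hu : u ∉ N
  hx : x ∉ N
  hy : y ∉ N
  hz : z ∉ N
  all : ∀ v, v ∈ N ∨ v = u ∨ v = x ∨ v = y ∨ v = z
  nx : ∀ v, G.Adj x v ↔ v ∈ N ∨ v = u
  ny : ∀ v, G.Adj y v ↔ v ∈ N ∨ v = u
  nz : ∀ v, G.Adj z v ↔ v ∈ N ∨ v = u

/-- **CASEB**. (Hypotheses: XCON, COMPS, LOWN, THIRD, SING.)

Proof. XCON; COMPS for `Z = Xᶜ` (`Z \ {u, x, p, q} = Rest u x X \ {p, q}`; `p, q ∈ Z`) gives `C1, C2`;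
LOWN gives `r1 ∈ C1`, `r2 ∈ C2`, both adjacent to all of `X`. SING for `C1` and (exchanged) for `C2`:
`C1 = {r1}`, `C2 = {r2}`, `N(ri) = X ∪ {u, p, q}`. If `v ∈ Rest u x X \ {p, q}` is not `r1`, `r2`, its
component in `Rest u x X \ {p, q}` contains a low vertex by LOWN, which by THIRD is in `C1` or `C2`,
that is `r1` or `r2`; the component is then `{r1}` or `{r2}` (components are equal or disjoint),
contradiction. `y = r1`, `z = r2`, `N = insert p (insert q X)`. -/
def CASEB : Prop :=
  ∀ (V : Type) [Finite V] (G : SimpleGraph V) (n : ℕ) (u x : V), Setting G n u → x ≠ u →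
    (G.neighborSet x).ncard ≤ n + 3 → ∃ (y z : V) (N : Finset V), Final G n u x y z N

/-- **OCTA**. Six vertices with three disjoint non-edges: planar.

Proof. Let `Z` be the set of the six. (K33) The six branch sets are nonempty, disjoint, inside `Z`, so
they are singletons and every vertex is used; two non-adjacent vertices are on the same side,
so each side is a union of pairs, but has three elements. (K5) Five disjoint nonempty subsets of a
set with six elements: let `t` be the number of vertices which are not alone in their branch set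
or not used; `t ≤ 2`, so one of the three pairs consists of two vertices which are alone in
their (different) branch sets; they are not adjacent, contradiction. -/
def OCTA : Prop :=
  ∀ (V : Type) (G : SimpleGraph V) (a a' b b' c c' : V), [a, a', b, b', c, c'].Nodup →
    ¬ G.Adj a a' → ¬ G.Adj b b' → ¬ G.Adj c c' → Pl G {a, a', b, b', c, c'}

/-- **PATH4**. Six vertices `a, b, c, d, e, f` with the non-edges `ab`, `bc`, `cd`: planar.

Proof. (K33) All branch sets are singletons, non-adjacent vertices are on the same side, so
`a, b, c, d` are on one side, which has three elements. (K5) As in OCTA at most two vertices are not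
alone (in particular not unused) and each of the pairs `ab`, `bc`, `cd` contains one of them, so
they are `{b, c}`, `{a, c}` or `{b, d}` (two vertices are needed), everything is used and these two
form a branch set, which is connected, so it is `{a, c}` or `{b, d}`; the branch set `{a, c}` is not
adjacent to `{b}`, and `{b, d}` is not adjacent to `{c}`. -/
def PATH4 : Prop :=
  ∀ (V : Type) (G : SimpleGraph V) (a b c d e f : V), [a, b, c, d, e, f].Nodup →
    ¬ G.Adj a b → ¬ G.Adj b c → ¬ G.Adj c d → Pl G {a, b, c, d, e, f}

/-- **FIN** (B5). (Hypotheses: DEG3, OCTA.) `G` contains `K331 n` as a spanning subgraph.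

Proof. All `v ∈ N` are adjacent to `u, x, y, z` (nx, ny, nz, dominating). By DEG3 and `|V| = n + 6` every
`v ∈ N` has at most two non-neighbours in `N` (other than `v`). There are no four different
`a, b, c, d ∈ N` with `a ≁ b`, `c ≁ d`: otherwise delete `u`, `x` and `N \ {a, b, c, d}`, which are
`n` vertices (`n + 2 ≥ 4`), left are `y, z, a, b, c, d`, with non-edges `yz`, `ab`, `cd`, planar by
OCTA, contradiction to `Setting.non`. Hence all non-edges inside `N` lie in a subset `T ⊆ N` with
three elements (if there is a non-edge `ab`: the other non-edges meet `{a, b}`, and all of them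
are of the form `a c` and `b c` with the same `c` because `a` and `b` have at most two
non-neighbours and because of the previous statement; otherwise any three elements). Choose a
bijection `f` of `V` with `{x, y, z} → ` the first part, `T → ` the second part, the rest
(`n - 1` elements of `N` and `u`) `→` `Fin n`. -/
def FIN : Prop :=
  ∀ (V : Type) [Finite V] (G : SimpleGraph V) (n : ℕ) (u x y z : V) (N : Finset V), 1 ≤ n →
    Setting G n u → Final G n u x y z N →
    ∃ f : (Fin 3 ⊕ Fin 3 ⊕ Fin n) ≃ V, ∀ a b, (K331 n).Adj a b → G.Adj (f a) (f b)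

/-- **SPAN**. A minor-minimal non-`n`-apex graph is isomorphic to every non-`n`-apex minor of it.

Proof. `W` is finite; let `H'` on `Fin m` be isomorphic to `H` (`m = Nat.card W`). `H'` is a minor of
`G`; if `H'` is not isomorphic to `G`, it is `n`-apex by definition, so `H` is (`NApex.of_isMinor`,
`IsMinor.of_iso`), contradiction. -/
def SPAN : Prop :=
  ∀ (V W : Type) [Finite V] [Finite W] (G : SimpleGraph V) (H : SimpleGraph W) (n : ℕ),
    MinMinimal n G → ¬ NApex n H → IsMinor H G → Nonempty (H ≃g G)

/-- **TOPM**. Proof. Not `n`-apex: at least five vertices are left, any five of them are a `K5`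
(singletons). Minimal (`minMinimal_of_edges`): for an edge `xy` delete `n` of the other `n + 3`
vertices; five are left. `K33` needs six branch sets. A `K5` model has singletons, uses the edge
`xy`, and has `x`, `y` in different branch sets. -/
def TOPM : Prop := ∀ n : ℕ, MinMinimal n (⊤ : SimpleGraph (Fin (n + 5)))

/-- **KM331**. Proof. Not `n`-apex: at least six vertices are left; distribute them on two sets of
three, such that the remaining vertices of the first part are in the first set, those of the
second part in the second; `K33` of singletons. Minimal for `n ≥ 0` (`minMinimal_of_edges`), parts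
`A`, `B`, `U`: edge `a1 b1`: delete `U`. Edge `a1 u` (or `b1 u`): delete `U - u` and one vertex of the
other three-part (`b3`). Edge `u v`: delete `U - u - v`, one vertex of `A` and one of `B`. Six vertices
are left; `K33`: after the deletion of the edge all branch sets are singletons and non-adjacent
vertices are on the same side, impossible; if the two ends are in the same branch set there are
at most five branch sets. `K5`: at most two vertices are not alone in their branch set or unused
(and if the ends of the edge are together these are the two); so among the others there are two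
which are not adjacent. -/
def KM331 : Prop := ∀ n : ℕ, MinMinimal n (K331 n)

/-- **KMY**. Proof. Not `n`-apex: let `X` be deleted, `y = none`, `T = {0, 1, 2}`. If `y ∈ X`: at least
six points are left; take three of them, among them all remaining elements of `T`, and three
others: `K33`. If `y ∉ X` at least
five points are left. If some element of `T` is deleted, take five points, at most two of them in
`T`; if two elements `a, b` of `T` are among them use the branch set `{a, y}` instead of `{a}`: `K5`.
Otherwise `T` versus `y` and two other points: `K33`.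
Minimal (`minMinimal_of_edges`). A set `Q` of five points is kept, the other `n` points are
deleted, left is `Z = Q ∪ {y}`. Six vertices: a `K33` model consists of singletons and uses
everything; five or fewer branch sets (two ends of the edge together) make `K33` impossible; in a
`K5` model either one vertex is unused and all others are alone, or everything is used and exactly
two vertices form a branch set (`bad` vertices); a vertex which is alone has four neighbours in
`Z`, so `y` is bad.
(1) Edge `ij`, points not both in `T`; `Q` contains `i, j` and `Q \ {i, j} ≠ T` (possible since there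
are `n + 3 ≥ 4` other points). Deletion of `ij`: (1a) `|T ∩ Q| ≤ 2`: `y` has at most two neighbours in
`Z`: no `K33`. `K5`: `y` is unused: then `i`, `j` are alone, but not adjacent. `{y, t}` is a branch set,
`t ∈ T ∩ Q`: `i`, `j` are not both alone, so `t ∈ {i, j}`, say `t = i`; then `j ∉ T`, so `{y, i}` and `{j}`
are not adjacent. (1b) `T ⊆ Q`: then exactly one of `i`, `j` is in `T`, say `T = {i, a, b}`,
`Q = {i, j, a, b, c}`; `i` has only the neighbours `c`, `y`: no `K33`; in a `K5` both `i` and `y` are
bad, so `a`, `b` are alone, but not adjacent. Contraction: a `K5` model with `i`, `j` in one branch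
set has `y` alone, impossible.
(2) Edge `ya`, `T = {a, b, c} ⊆ Q = {a, b, c, d, e}`. Deletion: `y` has only two neighbours: no `K33`;
in a `K5` both `y` and `a` are bad (`a` has only the neighbours `d`, `e`), so `{y, a}` is a branch set,
but not connected. Contraction: `{y, a}` is a branch set, `b`, `c` are alone, but not adjacent. -/
def KMY : Prop := ∀ n : ℕ, 1 ≤ n → MinMinimal n (KY n)

/-- **ORD5**. A member of `M_n` with at most `n + 5` vertices is complete on `n + 5` vertices.

Proof. At most `n + 4` vertices: delete all but four (or fewer), no five branch sets: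
planar. `n + 5` vertices, `a ≁ b`: delete all except five vertices among them `a`, `b`: `K33` needs six
branch sets, a `K5` model consists of singletons and needs `a ~ b`. So `G` is complete. -/
def ORD5 : Prop :=
  ∀ (V : Type) [Finite V] (G : SimpleGraph V) (n : ℕ), MinMinimal n G → Nat.card V ≤ n + 5 →
    Nonempty (G ≃g (⊤ : SimpleGraph (Fin (n + 5))))

/-- **ORD6** (Theorem B, combinatorial part). (Hypotheses: OCTA, PATH4, SPAN, TOPM, KM331, KMY.)

Proof. `F` = complement of `G` (non-edges). Since `G` is not `n`-apex, no six vertices are as in OCTA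
or PATH4 (delete the other `n`). So (1) there are no three disjoint non-edges, (2) there are no
different `a, b, c, d` with `a ≁ b ≁ c ≁ d`.
(T) There is a triangle `a, b, c` in `F`. By (2) `a, b, c` have no further non-neighbours. By (1) any two
non-edges outside of `{a, b, c}` meet. So either they have a common vertex `y` (also if there is
none or one), and then `G` contains `KY n` as a spanning subgraph (`y ↦ none`, `{a, b, c} ↦ {0, 1,
2}`), so `G ≅ KY n` by SPAN; or they form a triangle, and `G` contains `K331 n` as a spanning
subgraph, so `G ≅ K331 n` by SPAN.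
(S) `F` has no triangle. Let `a` have the maximal number of non-neighbours. If `a` has none, `G` is
complete with `n + 6` vertices, it contains the complete graph on `n + 5` vertices, contradiction
to SPAN with TOPM (cardinalities). If `a` has a unique non-neighbour, `F` is a matching with at
most two edges, and if it has at least two, no non-neighbour of `a` has another non-neighbour
(by (2) and since there is no triangle). In both cases: the non-edges not at `a` are disjoint from
`a` and its non-neighbours, any two of them meet by (1), and they do not form a triangle, so they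
have a common vertex `d` (if there is none: any neighbour `d` of `a`; if `a` has no neighbour, `G - a`
is complete, contradiction as before). `a ~ d`, every non-edge contains `a` or `d`, and no vertex is
a non-neighbour of both. So contracting `a d` gives the complete graph on `n + 5` vertices (model:
`{a, d}` and singletons), contradiction to SPAN with TOPM (cardinalities). -/
def ORD6 : Prop :=
  ∀ (V : Type) [Finite V] (G : SimpleGraph V) (n : ℕ), 1 ≤ n → MinMinimal n G →
    Nat.card V = n + 6 → Nonempty (G ≃g K331 n) ∨ Nonempty (G ≃g KY n)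

end NApexGraphs.Dom.Goals
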