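import Pool.Agent.Helper58.Apex.Local

/-!
# Project DOM (MP_18808e_co): definitions and basic facts

Members of `M_n` with a dominating vertex. All sets of branch sets are given by closed-set
connectivity `Conn` (Helper58), minors inside a set `Z` of vertices by `HasK4`, `HasK5`, `HasK33`.
-/

namespace NApexGraphs.Dom

open SimpleGraph

variable {V : Type} {G G' : SimpleGraph V}

/-- there is an edge between the two sets -/
def Touch (G : SimpleGraph V) (S T : Set V) : Prop := ∃ x ∈ S, ∃ y ∈ T, G.Adj x y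

/-- a `K₄` minor with branch sets inside `Z` -/
def HasK4 (G : SimpleGraph V) (Z : Set V) : Prop :=
  ∃ B : Fin 4 → Set V, IsModel (⊤ : SimpleGraph (Fin 4)) G B ∧ ∀ k, B k ⊆ Z

/-- a `K₅` minor with branch sets inside `Z` -/
def HasK5 (G : SimpleGraph V) (Z : Set V) : Prop :=
  ∃ B : Fin 5 → Set V, IsModel K5 G B ∧ ∀ k, B k ⊆ Z

/-- a `K₃,₃` minor with branch sets inside `Z` -/
def HasK33 (G : SimpleGraph V) (Z : Set V) : Prop :=
  ∃ B : Fin 3 ⊕ Fin 3 → Set V, IsModel K33 G B ∧ ∀ k, B k ⊆ Z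

/-- the subgraph induced by `Z` is planar -/
def Pl (G : SimpleGraph V) (Z : Set V) : Prop := ¬ HasK5 G Z ∧ ¬ HasK33 G Z

theorem pl_iff (G : SimpleGraph V) (Z : Set V) : Pl G Z ↔ Planar (G.induce Z) := by
  unfold Pl Planar HasK5 HasK33
  rw [isMinor_induce_iff, isMinor_induce_iff]

theorem HasK5.mono {Z Z' : Set V} (h : HasK5 G Z) (hG : G ≤ G') (hZ : Z ⊆ Z') : HasK5 G' Z' := by
  obtain ⟨B, hB, hs⟩ := h
  exact ⟨B, hB.mono hG, fun k => (hs k).trans hZ⟩

theorem HasK33.mono {Z Z' : Set V} (h : HasK33 G Z) (hG : G ≤ G') (hZ : Z ⊆ Z') :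
    HasK33 G' Z' := by
  obtain ⟨B, hB, hs⟩ := h
  exact ⟨B, hB.mono hG, fun k => (hs k).trans hZ⟩

theorem Pl.mono {Z Z' : Set V} (h : Pl G' Z') (hG : G ≤ G') (hZ : Z ⊆ Z') : Pl G Z :=
  ⟨fun h5 => h.1 (h5.mono hG hZ), fun h6 => h.2 (h6.mono hG hZ)⟩

theorem Touch.symm {S T : Set V} (h : Touch G S T) : Touch G T S := by
  obtain ⟨x, hx, y, hy, hxy⟩ := h
  exact ⟨y, hy, x, hx, hxy.symm⟩

theorem Touch.mono {S T S' T' : Set V} (h : Touch G S T) (hG : G ≤ G') (hS : S ⊆ S')
    (hT : T ⊆ T') : Touch G' S' T' := by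
  obtain ⟨x, hx, y, hy, hxy⟩ := h
  exact ⟨x, hS hx, y, hT hy, hG hxy⟩

theorem touch_singleton {x y : V} : Touch G {x} {y} ↔ G.Adj x y := by
  constructor
  · rintro ⟨a, ha, b, hb, hab⟩
    rw [Set.mem_singleton_iff] at ha hb
    rwa [ha, hb] at hab
  · intro h
    exact ⟨x, rfl, y, rfl, h⟩

theorem conn_mono {S : Set V} (h : Conn G S) (hG : G ≤ G') : Conn G' S :=
  h.mono fun _ _ _ _ hab => hG hab

theorem conn_pair {x y : V} (h : G.Adj x y) : Conn G {x, y} := by
  have := (Conn.singleton G x).union (Conn.singleton G y) ⟨x, rfl, y, rfl, h⟩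
  exact this

/-- `K₃,₃` from two families of three sets -/
theorem hasK33_mk {Z : Set V} (A B : Fin 3 → Set V) (hA : ∀ i, Conn G (A i))
    (hB : ∀ i, Conn G (B i)) (dA : ∀ i j, i ≠ j → Disjoint (A i) (A j))
    (dB : ∀ i j, i ≠ j → Disjoint (B i) (B j)) (dAB : ∀ i j, Disjoint (A i) (B j))
    (adj : ∀ i j, Touch G (A i) (B j)) (sA : ∀ i, A i ⊆ Z) (sB : ∀ i, B i ⊆ Z) :
    HasK33 G Z := by
  refine ⟨Sum.elim A B, ?_, ?_⟩
  · rw [isModel_iff]
    refine ⟨?_, ?_, ?_⟩
    · rintro (k | k)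
      · exact hA k
      · exact hB k
    · rintro (k | k) (l | l) hkl
      · exact dA k l fun h => hkl (by rw [h])
      · exact dAB k l
      · exact (dAB l k).symm
      · exact dB k l fun h => hkl (by rw [h])
    · rintro (k | k) (l | l) hkl
      · simp at hkl
      · exact adj k l
      · exact (adj l k).symm
      · simp at hkl
  · rintro (k | k)
    · exact sA k
    · exact sB k

/-- `K₃,₃` from six sets; the lists are unfolded with `simp`. -/
theorem hasK33_sets {Z : Set V} (A0 A1 A2 B0 B1 B2 : Set V)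
    (hc : ∀ S ∈ [A0, A1, A2, B0, B1, B2], Conn G S)
    (hd : [A0, A1, A2, B0, B1, B2].Pairwise Disjoint)
    (ht : ∀ S ∈ [A0, A1, A2], ∀ T ∈ [B0, B1, B2], Touch G S T)
    (hs : ∀ S ∈ [A0, A1, A2, B0, B1, B2], S ⊆ Z) : HasK33 G Z := by
  simp only [List.mem_cons, List.not_mem_nil, or_false, forall_eq_or_imp, forall_eq] at hc ht hs
  simp only [List.pairwise_cons, List.mem_cons, List.not_mem_nil, or_false, forall_eq_or_imp,
    forall_eq, IsEmpty.forall_iff, implies_true, List.Pairwise.nil, and_true] at hd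
  obtain ⟨a0, a1, a2, b0, b1, b2⟩ := hc
  obtain ⟨s0, s1, s2, s3, s4, s5⟩ := hs
  obtain ⟨⟨d01, d02, d03, d04, d05⟩, ⟨d12, d13, d14, d15⟩, ⟨d23, d24, d25⟩, ⟨d34, d35⟩, d45⟩ := hd
  obtain ⟨⟨t00, t01, t02⟩, ⟨t10, t11, t12⟩, ⟨t20, t21, t22⟩⟩ := ht
  apply hasK33_mk ![A0, A1, A2] ![B0, B1, B2]
  · intro i; fin_cases i <;> assumption
  · intro i; fin_cases i <;> assumption
  · intro i j hij
    fin_cases i <;> fin_cases j <;>
      first | exact absurd rfl hij | assumption | exact Disjoint.symm (by assumption)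
  · intro i j hij
    fin_cases i <;> fin_cases j <;>
      first | exact absurd rfl hij | assumption | exact Disjoint.symm (by assumption)
  · intro i j; fin_cases i <;> fin_cases j <;> assumption
  · intro i j; fin_cases i <;> fin_cases j <;> assumption
  · intro i; fin_cases i <;> assumption
  · intro i; fin_cases i <;> assumption

/-- `K₅` from five sets; the lists are unfolded with `simp`. -/
theorem hasK5_sets {Z : Set V} (A0 A1 A2 A3 A4 : Set V)
    (hc : ∀ S ∈ [A0, A1, A2, A3, A4], Conn G S)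
    (hd : [A0, A1, A2, A3, A4].Pairwise Disjoint)
    (ht : [A0, A1, A2, A3, A4].Pairwise (Touch G))
    (hs : ∀ S ∈ [A0, A1, A2, A3, A4], S ⊆ Z) : HasK5 G Z := by
  simp only [List.mem_cons, List.not_mem_nil, or_false, forall_eq_or_imp, forall_eq] at hc hs
  simp only [List.pairwise_cons, List.mem_cons, List.not_mem_nil, or_false, forall_eq_or_imp,
    forall_eq, IsEmpty.forall_iff, implies_true, List.Pairwise.nil, and_true] at hd ht
  obtain ⟨a0, a1, a2, a3, a4⟩ := hc
  obtain ⟨s0, s1, s2, s3, s4⟩ := hs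
  obtain ⟨⟨d01, d02, d03, d04⟩, ⟨d12, d13, d14⟩, ⟨d23, d24⟩, d34⟩ := hd
  obtain ⟨⟨t01, t02, t03, t04⟩, ⟨t12, t13, t14⟩, ⟨t23, t24⟩, t34⟩ := ht
  refine ⟨![A0, A1, A2, A3, A4], ?_, ?_⟩
  · rw [isModel_iff]
    refine ⟨?_, ?_, ?_⟩
    · intro i; fin_cases i <;> assumption
    · intro i j hij
      fin_cases i <;> fin_cases j <;>
        first | exact absurd rfl hij | assumption | exact Disjoint.symm (by assumption)
    · intro i j hij
      have key : Touch G (![A0, A1, A2, A3, A4] i) (![A0, A1, A2, A3, A4] j) := by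
        fin_cases i <;> fin_cases j <;>
          first | exact absurd rfl hij | assumption | exact Touch.symm (by assumption)
      exact key
  · intro i; fin_cases i <;> assumption

/-- `C` is a connected component of `G[O]` -/
structure IsComp (G : SimpleGraph V) (O C : Set V) : Prop where
  sub : C ⊆ O
  conn : Conn G C
  closed : ∀ x ∈ C, ∀ y ∈ O, G.Adj x y → y ∈ C

/-- every connected subset of a finite set lies in a component -/
theorem exists_comp [Finite V] {O E : Set V} (hE : Conn G E) (hEO : E ⊆ O) :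
    ∃ C, IsComp G O C ∧ E ⊆ C := by
  classical
  have hfin : {C : Set V | E ⊆ C ∧ C ⊆ O ∧ Conn G C}.Finite := Set.toFinite _
  obtain ⟨C, hC, hmax⟩ := hfin.exists_maximal ⟨E, Set.Subset.rfl, hEO, hE⟩
  obtain ⟨hEC, hCO, hconn⟩ := hC
  refine ⟨C, ⟨hCO, hconn, ?_⟩, hEC⟩
  intro x hx y hy hxy
  have h1 : Conn G (C ∪ {y}) := hconn.union (Conn.singleton G y) ⟨x, hx, y, rfl, hxy⟩
  have h2 : C ∪ {y} ⊆ C := by
    apply hmax ⟨hEC.trans Set.subset_union_left, ?_, h1⟩ Set.subset_union_left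
    exact Set.union_subset hCO (Set.singleton_subset_iff.2 hy)
  exact h2 (Or.inr rfl)

/-- the hypotheses on `G` which are used: `u` is dominating, `G` is not `n`-apex and the
deletion of any edge at `u` makes it `n`-apex. -/
structure Setting (G : SimpleGraph V) (n : ℕ) (u : V) : Prop where
  dom : ∀ v, v ≠ u → G.Adj u v
  non : ∀ X : Finset V, X.card ≤ n → ¬ Pl G ((X : Set V)ᶜ)
  del : ∀ x, x ≠ u → ∃ X : Finset V, X.card ≤ n ∧ Pl (G.deleteEdges {s(u, x)}) ((X : Set V)ᶜ)

/-- `X` is a planarising `n`-set for the graph `G - ux` (section 1 of the paper). -/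
structure PSet (G : SimpleGraph V) (n : ℕ) (u x : V) (X : Finset V) : Prop where
  card : X.card = n
  hu : u ∉ X
  hx : x ∉ X
  nbr : ∀ s ∈ X, G.Adj x s
  pl : Pl (G.deleteEdges {s(u, x)}) ((X : Set V)ᶜ)

/-- the rest: all vertices except `u`, `x` and those of `X` -/
def Rest (u x : V) (X : Finset V) : Set V := {z | z ∉ X ∧ z ≠ u ∧ z ≠ x}

/-- `r` has at most two neighbours in `O` -/
def Low (G : SimpleGraph V) (O : Set V) (r : V) : Prop :=
  ∀ a ∈ O, ∀ b ∈ O, ∀ c ∈ O, G.Adj r a → G.Adj r b → G.Adj r c → a = b ∨ a = c ∨ b = c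

/-- the complete multipartite graph with two parts of three vertices and `n` parts of one
vertex. -/
def K331 (n : ℕ) : SimpleGraph (Fin 3 ⊕ Fin 3 ⊕ Fin n) where
  Adj x y := x ≠ y ∧ ¬ (x.isLeft ∧ y.isLeft) ∧
    ¬ ((∃ i, x = Sum.inr (Sum.inl i)) ∧ (∃ j, y = Sum.inr (Sum.inl j)))
  symm := ⟨fun x y h => ⟨h.1.symm, fun h' => h.2.1 ⟨h'.2, h'.1⟩, fun h' => h.2.2 ⟨h'.2, h'.1⟩⟩⟩
  loopless := ⟨fun x h => h.1 rfl⟩

/-- the `∇Y` child of the complete graph on `n + 5` vertices: the triangle `0, 1, 2` is replaced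
by the new vertex `none`. -/
def KY (n : ℕ) : SimpleGraph (Option (Fin (n + 5))) where
  Adj x y := match x, y with
    | some i, some j => i ≠ j ∧ ¬ (i.val < 3 ∧ j.val < 3)
    | some i, none => i.val < 3
    | none, some j => j.val < 3
    | none, none => False
  symm := ⟨by
    rintro (_ | i) (_ | j) h
    · exact h
    · exact h
    · exact h
    · exact ⟨h.1.symm, fun h' => h.2 ⟨h'.2, h'.1⟩⟩⟩
  loopless := ⟨by
    rintro (_ | i) h
    · exact h
    · exact h.1 rfl⟩

end NApexGraphs.Dom
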