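import Pool.Agent.Helper68.Dom.Goals

/-!
# Project DOM: the Dirac type lemma (LEMD)
-/

namespace NApexGraphs.Dom.Helper68

open SimpleGraph NApexGraphs NApexGraphs.Dom

variable {V : Type}

/-- `K₄` from four sets -/
theorem hasK4_sets {G : SimpleGraph V} {Z : Set V} (A0 A1 A2 A3 : Set V)
    (hc : ∀ S ∈ [A0, A1, A2, A3], Conn G S)
    (hd : [A0, A1, A2, A3].Pairwise Disjoint)
    (ht : [A0, A1, A2, A3].Pairwise (Touch G))
    (hs : ∀ S ∈ [A0, A1, A2, A3], S ⊆ Z) : HasK4 G Z := by
  simp only [List.mem_cons, List.not_mem_nil, or_false, forall_eq_or_imp, forall_eq] at hc hs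
  simp only [List.pairwise_cons, List.mem_cons, List.not_mem_nil, or_false, forall_eq_or_imp,
    forall_eq, IsEmpty.forall_iff, implies_true, List.Pairwise.nil, and_true] at hd ht
  obtain ⟨a0, a1, a2, a3⟩ := hc
  obtain ⟨s0, s1, s2, s3⟩ := hs
  obtain ⟨⟨d01, d02, d03⟩, ⟨d12, d13⟩, d23⟩ := hd
  obtain ⟨⟨t01, t02, t03⟩, ⟨t12, t13⟩, t23⟩ := ht
  refine ⟨![A0, A1, A2, A3], ?_, ?_⟩
  · rw [isModel_iff]
    refine ⟨?_, ?_, ?_⟩
    · intro i; fin_cases i <;> assumption
    · intro i j hij
      fin_cases i <;> fin_cases j <;>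
        first | exact absurd rfl hij | assumption | exact Disjoint.symm (by assumption)
    · intro i j hij
      have key : Touch G (![A0, A1, A2, A3] i) (![A0, A1, A2, A3] j) := by
        fin_cases i <;> fin_cases j <;>
          first | exact absurd rfl hij | assumption | exact Touch.symm (by assumption)
      exact key
  · intro i; fin_cases i <;> assumption

/-- contraction of `v` into `w`: all edges from `w` to the neighbours of `v` are added -/
def addN (Q : SimpleGraph V) (v w : V) : SimpleGraph V where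
  Adj x y := Q.Adj x y ∨ (x = w ∧ y ≠ w ∧ Q.Adj v y) ∨ (y = w ∧ x ≠ w ∧ Q.Adj v x)
  symm := ⟨by
    rintro x y (h | ⟨h1, h2, h3⟩ | ⟨h1, h2, h3⟩)
    · exact Or.inl h.symm
    · exact Or.inr (Or.inr ⟨h1, h2, h3⟩)
    · exact Or.inr (Or.inl ⟨h1, h2, h3⟩)⟩
  loopless := ⟨by
    rintro x (h | ⟨h1, h2, h3⟩ | ⟨h1, h2, h3⟩)
    · exact h.ne rfl
    · exact h2 h1
    · exact h2 h1⟩

/-- a `K₄` model of the contracted graph lifts -/
theorem lift_addN {Q : SimpleGraph V} {v w : V} (hvw : Q.Adj v w) {W : Set V} (hv : v ∈ W)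
    (h : HasK4 (addN Q v w) (W \ {v})) : HasK4 Q W := by
  classical
  obtain ⟨B, hB, hs⟩ := h
  rw [isModel_iff] at hB
  obtain ⟨hc, hd, ha⟩ := hB
  have hvB : ∀ k, v ∉ B k := fun k hk => (hs k hk).2 rfl
  let B' : Fin 4 → Set V := fun k => if w ∈ B k then B k ∪ {v} else B k
  have hsub : ∀ k, B k ⊆ B' k := by
    intro k
    simp only [B']
    split_ifs
    · exact Set.subset_union_left
    · exact Set.Subset.rfl
  have hmem : ∀ k z, z ∈ B' k → z ∈ B k ∨ (z = v ∧ w ∈ B k) := by
    intro k z hz
    simp only [B'] at hz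
    split_ifs at hz with h1
    · rcases hz with hz | hz
      · exact Or.inl hz
      · exact Or.inr ⟨hz, h1⟩
    · exact Or.inl hz
  refine ⟨B', ?_, ?_⟩
  · rw [isModel_iff]
    refine ⟨?_, ?_, ?_⟩
    · intro k
      by_cases h1 : w ∈ B k
      · have e1 : B' k = B k ∪ {v} := by simp only [B', if_pos h1]
        rw [e1]
        refine ⟨⟨v, Or.inr rfl⟩, ?_⟩
        intro A hA hne hcl
        -- A ∩ B k is closed in addN
        have hvA : v ∈ A ↔ w ∈ A := by
          constructor
          · intro h; exact hcl v h w (Or.inl h1) hvw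
          · intro h; exact hcl w h v (Or.inr rfl) hvw.symm
        have hcl' : ∀ x ∈ A ∩ B k, ∀ y ∈ B k, (addN Q v w).Adj x y → y ∈ A ∩ B k := by
          rintro x ⟨hxA, hxB⟩ y hy hxy
          refine ⟨?_, hy⟩
          rcases hxy with h | ⟨h1', h2, h3⟩ | ⟨h1', h2, h3⟩
          · exact hcl x hxA y (Or.inl hy) h
          · subst h1'
            exact hcl v (hvA.2 hxA) y (Or.inl hy) h3
          · subst h1'
            exact hvA.1 (hcl x hxA v (Or.inr rfl) h3.symm)
        have hne' : (A ∩ B k).Nonempty := by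
          obtain ⟨z, hz⟩ := hne
          rcases hA hz with h | h
          · exact ⟨z, hz, h⟩
          · rw [Set.mem_singleton_iff] at h
            subst h
            exact ⟨w, hvA.1 hz, h1⟩
        have hall : B k ⊆ A ∩ B k := (hc k).2 _ Set.inter_subset_right hne' hcl'
        rintro z (hz | hz)
        · exact (hall hz).1
        · rw [Set.mem_singleton_iff] at hz
          subst hz
          exact hvA.2 (hall h1).1
      · have e1 : B' k = B k := by simp only [B', if_neg h1]
        rw [e1]
        refine (hc k).mono ?_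
        intro x hx y hy hxy
        rcases hxy with h | ⟨h1', h2, h3⟩ | ⟨h1', h2, h3⟩
        · exact h
        · subst h1'; exact absurd hx h1
        · subst h1'; exact absurd hy h1
    · intro k l hkl
      rw [Set.disjoint_left]
      intro z hz hz'
      rcases hmem k z hz with h | ⟨h, hw⟩ <;> rcases hmem l z hz' with h' | ⟨h', hw'⟩
      · exact Set.disjoint_left.1 (hd k l hkl) h h'
      · subst h'; exact hvB k h
      · subst h; exact hvB l h'
      · exact Set.disjoint_left.1 (hd k l hkl) hw hw'
    · intro k l hkl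
      obtain ⟨x, hx, y, hy, hxy⟩ := ha k l hkl
      rcases hxy with h | ⟨h1', h2, h3⟩ | ⟨h1', h2, h3⟩
      · exact ⟨x, hsub k hx, y, hsub l hy, h⟩
      · subst h1'
        refine ⟨v, ?_, y, hsub l hy, h3⟩
        simp only [B', if_pos hx]
        exact Or.inr rfl
      · subst h1'
        refine ⟨x, hsub k hx, v, ?_, h3.symm⟩
        simp only [B', if_pos hy]
        exact Or.inr rfl
  · intro k z hz
    rcases hmem k z hz with h | ⟨h, _⟩
    · exact (hs k h).1
    · subst h; exact hv

theorem HasK4.mono' {G : SimpleGraph V} {Z Z' : Set V} (h : HasK4 G Z) (hZ : Z ⊆ Z') :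
    HasK4 G Z' := by
  obtain ⟨B, hB, hs⟩ := h
  exact ⟨B, hB, fun k => (hs k).trans hZ⟩

theorem low_iff_card (Q : SimpleGraph V) (W : Finset V) (v : V) [DecidableRel Q.Adj] :
    Low Q (W : Set V) v ↔ (W.filter (Q.Adj v)).card ≤ 2 := by
  classical
  constructor
  · intro h
    by_contra hlt
    push Not at hlt
    obtain ⟨a, b, c, ha, hb, hc, h1, h2, h3⟩ := Finset.two_lt_card_iff.1 hlt
    rw [Finset.mem_filter] at ha hb hc
    rcases h a ha.1 b hb.1 c hc.1 ha.2 hb.2 hc.2 with h | h | h
    · exact h1 h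
    · exact h2 h
    · exact h3 h
  · intro h a ha b hb c hc h1 h2 h3
    by_contra hcon
    push Not at hcon
    have : 2 < (W.filter (Q.Adj v)).card := by
      rw [Finset.two_lt_card_iff]
      exact ⟨a, b, c, Finset.mem_filter.2 ⟨ha, h1⟩, Finset.mem_filter.2 ⟨hb, h2⟩,
        Finset.mem_filter.2 ⟨hc, h3⟩, hcon.1, hcon.2.1, hcon.2.2⟩
    omega

theorem comp_sub {Q : SimpleGraph V} {O K K' : Set V} (h : IsComp Q O K) (h' : IsComp Q O K')
    {z : V} (hz : z ∈ K) (hz' : z ∈ K') : K ⊆ K' :=
  h.conn.subset_of_closed ⟨z, hz, hz'⟩ fun x _ hx' y hy hxy => h'.closed x hx' y (h.sub hy) hxy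

theorem lemD_aux [Finite V] : ∀ (m : ℕ) (Q : SimpleGraph V) (W : Finset V) (a b : V),
    W.card = m → a ∈ W → b ∈ W → (a = b ∨ Q.Adj a b) → (∃ v ∈ W, v ≠ a ∧ v ≠ b) →
    (∀ v ∈ W, v ≠ a → v ≠ b → ¬ Low Q (W : Set V) v) → HasK4 Q (W : Set V) := by
  classical
  intro m
  induction m using Nat.strong_induction_on with
  | _ m ih =>
  intro Q W a b hm ha hb hab hne hdeg
  by_contra hno
  -- a component which avoids a and b
  have key : ∀ v w s t, v ∈ W → w ∈ W → Q.Adj v w →
      (∀ y ∈ W, Q.Adj v y → y = w ∨ y = s ∨ y = t) →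
      (∀ y ∈ W, Q.Adj w y → y = v ∨ y = s ∨ y = t) →
      ∀ K, IsComp Q ((W : Set V) \ {v, w}) K → t ∈ K → s ∉ K → a ∉ K → b ∉ K → False := by
    intro v w s t hv hw hvw hNv hNw K hK htK hsK haK hbK
    have hKW : ∀ y ∈ K, y ∈ W := fun y hy => (hK.sub hy).1
    have hcl : ∀ y ∈ K, ∀ z ∈ W, Q.Adj y z → z = v ∨ z = w ∨ z ∈ K := by
      intro y hy z hz hyz
      by_cases h1 : z = v
      · exact Or.inl h1
      by_cases h2 : z = w
      · exact Or.inr (Or.inl h2)
      · refine Or.inr (Or.inr (hK.closed y hy z ⟨hz, ?_⟩ hyz))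
        rintro (h | h)
        · exact h1 h
        · exact h2 h
    have hyv : ∀ y ∈ K, y ≠ t → ¬ Q.Adj y v ∧ ¬ Q.Adj y w := by
      intro y hy hyt
      have hyZ := (hK.sub hy).2
      constructor
      · intro h
        rcases hNv y (hKW y hy) h.symm with h' | h' | h'
        · exact hyZ (Or.inr h')
        · exact hsK (h' ▸ hy)
        · exact hyt h'
      · intro h
        rcases hNw y (hKW y hy) h.symm with h' | h' | h'
        · exact hyZ (Or.inl h')
        · exact hsK (h' ▸ hy)
        · exact hyt h'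
    by_cases hex : ∃ y ∈ K, y ≠ t
    · obtain ⟨y0, hy0, hy0t⟩ := hex
      let K' : Finset V := W.filter fun y => y ∈ K
      have hK' : (K' : Set V) = K := by
        ext y
        simp only [K', Finset.coe_filter, Set.mem_ofPred_eq]
        exact ⟨fun h => h.2, fun h => ⟨hKW y h, h⟩⟩
      have hlt : K'.card < m := by
        rw [← hm]
        apply Finset.card_lt_card
        refine ⟨Finset.filter_subset _ _, fun h => ?_⟩
        have := h hv
        rw [Finset.mem_filter] at this
        exact (hK.sub this.2).2 (Or.inl rfl)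
      have h4 : HasK4 Q (K' : Set V) := by
        apply ih K'.card hlt Q K' t t rfl
        · exact Finset.mem_filter.2 ⟨hKW t htK, htK⟩
        · exact Finset.mem_filter.2 ⟨hKW t htK, htK⟩
        · exact Or.inl rfl
        · exact ⟨y0, Finset.mem_filter.2 ⟨hKW y0 hy0, hy0⟩, hy0t, hy0t⟩
        · intro y hy hyt _ hlow
          have hyK : y ∈ K := (Finset.mem_filter.1 hy).2
          refine hdeg y (hKW y hyK) (fun h => haK (h ▸ hyK)) (fun h => hbK (h ▸ hyK)) ?_
          rw [hK'] at hlow
          have hin : ∀ z ∈ (W : Set V), Q.Adj y z → z ∈ K := by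
            intro z hz hyz
            rcases hcl y hyK z hz hyz with h | h | h
            · subst h; exact absurd hyz (hyv y hyK hyt).1
            · subst h; exact absurd hyz (hyv y hyK hyt).2
            · exact h
          intro a' ha' b' hb' c' hc' h1 h2 h3
          exact hlow a' (hin a' ha' h1) b' (hin b' hb' h2) c' (hin c' hc' h3) h1 h2 h3
      refine hno (HasK4.mono' h4 ?_)
      rw [hK']
      exact fun y hy => hKW y hy
    · push Not at hex
      refine hdeg t (hKW t htK) (fun h => haK (h ▸ htK)) (fun h => hbK (h ▸ htK)) ?_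
      have hin : ∀ z ∈ (W : Set V), Q.Adj t z → z = v ∨ z = w := by
        intro z hz htz
        rcases hcl t htK z hz htz with h | h | h
        · exact Or.inl h
        · exact Or.inr h
        · have := hex z h
          subst this
          exact absurd rfl htz.ne
      intro a' ha' b' hb' c' hc' h1 h2 h3
      rcases hin a' ha' h1 with e1 | e1 <;> rcases hin b' hb' h2 with e2 | e2 <;>
        rcases hin c' hc' h3 with e3 | e3 <;> subst_vars <;> simp
  -- the diamond
  have hII : ∀ v w s t, v ∈ W → w ∈ W → v ≠ a → v ≠ b → w ≠ a → w ≠ b → Q.Adj v w →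
      s ∈ W → t ∈ W → s ≠ t → Q.Adj v s → Q.Adj v t → Q.Adj w s → Q.Adj w t →
      (∀ y ∈ W, Q.Adj v y → y = w ∨ y = s ∨ y = t) →
      (∀ y ∈ W, Q.Adj w y → y = v ∨ y = s ∨ y = t) → False := by
    intro v w s t hv hw hva hvb hwa hwb hvw hs ht hst hvs hvt hws hwt hNv hNw
    have htZ : t ∈ (W : Set V) \ {v, w} := by
      refine ⟨ht, ?_⟩
      rintro (h | h)
      · exact hvt.ne h.symm
      · exact hwt.ne h.symm
    have hsZ : s ∈ (W : Set V) \ {v, w} := by
      refine ⟨hs, ?_⟩
      rintro (h | h)
      · exact hvs.ne h.symm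
      · exact hws.ne h.symm
    have haZ : a ∈ (W : Set V) \ {v, w} := by
      refine ⟨ha, ?_⟩
      rintro (h | h)
      · exact hva h.symm
      · exact hwa h.symm
    have hbZ : b ∈ (W : Set V) \ {v, w} := by
      refine ⟨hb, ?_⟩
      rintro (h | h)
      · exact hvb h.symm
      · exact hwb h.symm
    obtain ⟨K, hK, htK⟩ := exists_comp (Conn.singleton Q t) (Set.singleton_subset_iff.2 htZ)
    rw [Set.singleton_subset_iff] at htK
    by_cases hsK : s ∈ K
    · have hsub : ({s} : Set V) ⊆ K \ {t} := by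
        rw [Set.singleton_subset_iff]
        exact ⟨hsK, hst⟩
      obtain ⟨S, hS, hsS⟩ := exists_comp (Conn.singleton Q s) hsub
      rw [Set.singleton_subset_iff] at hsS
      have htS : t ∉ S := fun h => (hS.sub h).2 rfl
      obtain ⟨x, hx, hxS, y, hy, hyS, hxy⟩ := hK.conn.exists_edge (A := S) ⟨s, hsK, hsS⟩
        ⟨t, htK, htS⟩
      have hyt : y = t := by
        by_contra hyt
        exact hyS (hS.closed x hxS y ⟨hy, hyt⟩ hxy)
      subst hyt
      apply hno
      have hSZ : ∀ z ∈ S, z ∈ W ∧ z ≠ v ∧ z ≠ w := by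
        intro z hz
        have := hK.sub (hS.sub hz).1
        exact ⟨this.1, fun h => this.2 (Or.inl h), fun h => this.2 (Or.inr h)⟩
      apply hasK4_sets {v} {w} S {y}
      · simp only [List.mem_cons, List.not_mem_nil, or_false, forall_eq_or_imp, forall_eq]
        exact ⟨Conn.singleton _ _, Conn.singleton _ _, hS.conn, Conn.singleton _ _⟩
      · simp only [List.pairwise_cons, List.mem_cons, List.not_mem_nil, or_false,
          forall_eq_or_imp, forall_eq, IsEmpty.forall_iff, implies_true, List.Pairwise.nil,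
          and_true, Set.disjoint_singleton_left, Set.disjoint_singleton_right,
          Set.mem_singleton_iff]
        exact ⟨⟨hvw.ne, fun h => (hSZ v h).2.1 rfl, hvt.ne⟩,
          ⟨fun h => (hSZ w h).2.2 rfl, hwt.ne⟩, htS⟩
      · simp only [List.pairwise_cons, List.mem_cons, List.not_mem_nil, or_false,
          forall_eq_or_imp, forall_eq, IsEmpty.forall_iff, implies_true, List.Pairwise.nil,
          and_true, touch_singleton]
        exact ⟨⟨hvw, ⟨v, rfl, s, hsS, hvs⟩, hvt⟩, ⟨⟨w, rfl, s, hsS, hws⟩, hwt⟩,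
          ⟨x, hxS, y, rfl, hxy⟩⟩
      · simp only [List.mem_cons, List.not_mem_nil, or_false, forall_eq_or_imp, forall_eq,
          Set.singleton_subset_iff]
        exact ⟨hv, hw, fun z hz => (hSZ z hz).1, ht⟩
    · by_cases hab' : a ∈ K ∨ b ∈ K
      · have haK : a ∈ K := by
          rcases hab' with h | h
          · exact h
          · rcases hab with h' | h'
            · rw [h']; exact h
            · exact hK.closed b h a haZ h'.symm
        have hbK : b ∈ K := by
          rcases hab with h' | h'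
          · rw [← h']; exact haK
          · exact hK.closed a haK b hbZ h'
        obtain ⟨L, hL, hsL⟩ := exists_comp (Conn.singleton Q s) (Set.singleton_subset_iff.2 hsZ)
        rw [Set.singleton_subset_iff] at hsL
        have hdisj : ∀ z ∈ K, z ∉ L := fun z hz hz' => hsK (comp_sub hL hK hz' hz hsL)
        have hswap : ∀ {P Q R : Prop}, P ∨ Q ∨ R → P ∨ R ∨ Q := by
          intro P Q R h
          rcases h with h | h | h
          · exact Or.inl h
          · exact Or.inr (Or.inr h)
          · exact Or.inr (Or.inl h)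
        exact key v w t s hv hw hvw (fun y hy h => hswap (hNv y hy h))
          (fun y hy h => hswap (hNw y hy h)) L hL hsL (hdisj t htK) (hdisj a haK) (hdisj b hbK)
      · push Not at hab'
        exact key v w s t hv hw hvw hNv hNw K hK htK hsK hab'.1 hab'.2
  -- contraction
  have hI : ∀ v ∈ W, v ≠ a → v ≠ b → ∀ w ∈ W, Q.Adj v w →
      ∃ z ∈ W, z ≠ a ∧ z ≠ b ∧ Q.Adj z v ∧ Q.Adj z w ∧
        (W.filter (Q.Adj z)).card = 3 := by
    intro v hv hva hvb w hw hvw
    have hdv : ∀ z ∈ W, z ≠ a → z ≠ b → 3 ≤ (W.filter (Q.Adj z)).card := by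
      intro z hz hza hzb
      have := hdeg z hz hza hzb
      rw [low_iff_card] at this
      omega
    have hcoe : ((W.erase v : Finset V) : Set V) = (W : Set V) \ {v} := by
      rw [Finset.coe_erase]
    have hno' : ¬ HasK4 (addN Q v w) ((W.erase v : Finset V) : Set V) := by
      intro h
      rw [hcoe] at h
      exact hno (lift_addN hvw hv h)
    have hex : ∃ z ∈ W.erase v, z ≠ a ∧ z ≠ b ∧
        Low (addN Q v w) ((W.erase v : Finset V) : Set V) z := by
      by_contra hcon
      push Not at hcon
      apply hno'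
      apply ih (W.erase v).card ?_ (addN Q v w) (W.erase v) a b rfl
        (Finset.mem_erase.2 ⟨fun h => hva h.symm, ha⟩)
        (Finset.mem_erase.2 ⟨fun h => hvb h.symm, hb⟩)
      · rcases hab with h | h
        · exact Or.inl h
        · exact Or.inr (Or.inl h)
      · -- a neighbour of v different from a, b
        have h3 := hdv v hv hva hvb
        have : ∃ z ∈ (W.filter (Q.Adj v)), z ∉ ({a, b} : Finset V) := by
          by_contra hcon'
          push Not at hcon'
          have h4 := Finset.card_le_card (fun z hz => hcon' z hz :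
            (W.filter (Q.Adj v)) ⊆ ({a, b} : Finset V))
          have h5 : ({a, b} : Finset V).card ≤ 2 := Finset.card_le_two
          omega
        obtain ⟨z, hz, hzab⟩ := this
        rw [Finset.mem_filter] at hz
        simp only [Finset.mem_insert, Finset.mem_singleton, not_or] at hzab
        exact ⟨z, Finset.mem_erase.2 ⟨hz.2.ne', hz.1⟩, hzab.1, hzab.2⟩
      · intro z hz hza hzb
        exact hcon z hz hza hzb
      · rw [← hm]
        exact Finset.card_erase_lt_of_mem hv
    obtain ⟨z, hz, hza, hzb, hlow⟩ := hex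
    obtain ⟨hzv, hzW⟩ := Finset.mem_erase.1 hz
    rw [low_iff_card] at hlow
    by_cases hzw : z = w
    · -- z = w
      exfalso
      subst hzw
      have h3v := hdv v hv hva hvb
      have h3w := hdv z hzW hza hzb
      have hA : ((W.filter (Q.Adj v)).erase z) ⊆
          ((W.erase v).filter ((addN Q v z).Adj z)) := by
        intro y hy
        rw [Finset.mem_erase, Finset.mem_filter] at hy
        rw [Finset.mem_filter, Finset.mem_erase]
        exact ⟨⟨hy.2.2.ne', hy.2.1⟩, Or.inr (Or.inl ⟨rfl, hy.1, hy.2.2⟩)⟩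
      have hB : ((W.filter (Q.Adj z)).erase v) ⊆
          ((W.erase v).filter ((addN Q v z).Adj z)) := by
        intro y hy
        rw [Finset.mem_erase, Finset.mem_filter] at hy
        rw [Finset.mem_filter, Finset.mem_erase]
        exact ⟨⟨hy.1, hy.2.1⟩, Or.inl hy.2.2⟩
      have cA : 2 ≤ ((W.filter (Q.Adj v)).erase z).card := by
        rw [Finset.card_erase_of_mem (Finset.mem_filter.2 ⟨hzW, hvw⟩)]
        omega
      have cB : 2 ≤ ((W.filter (Q.Adj z)).erase v).card := by
        rw [Finset.card_erase_of_mem (Finset.mem_filter.2 ⟨hv, hvw.symm⟩)]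
        omega
      have eA := Finset.eq_of_subset_of_card_le hA (by omega)
      have eB := Finset.eq_of_subset_of_card_le hB (by omega)
      have hcard : ((W.filter (Q.Adj v)).erase z).card = 2 := by
        have := Finset.card_le_card hA
        omega
      obtain ⟨s, t, hst, hst'⟩ := Finset.card_eq_two.1 hcard
      have hmemA : ∀ y, y ∈ ((W.filter (Q.Adj v)).erase z) ↔ y = s ∨ y = t := by
        intro y
        rw [hst']
        simp
      have hmemB : ∀ y, y ∈ ((W.filter (Q.Adj z)).erase v) ↔ y = s ∨ y = t := by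
        intro y
        rw [eB, ← eA]
        exact hmemA y
      have hs1 := (hmemA s).2 (Or.inl rfl)
      have ht1 := (hmemA t).2 (Or.inr rfl)
      have hs2 := (hmemB s).2 (Or.inl rfl)
      have ht2 := (hmemB t).2 (Or.inr rfl)
      rw [Finset.mem_erase, Finset.mem_filter] at hs1 ht1 hs2 ht2
      refine hII v z s t hv hzW hva hvb hza hzb hvw hs1.2.1 ht1.2.1 hst hs1.2.2 ht1.2.2
        hs2.2.2 ht2.2.2 ?_ ?_
      · intro y hy hvy
        by_cases hyz : y = z
        · exact Or.inl hyz
        · exact Or.inr ((hmemA y).1 (Finset.mem_erase.2 ⟨hyz, Finset.mem_filter.2 ⟨hy, hvy⟩⟩))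
      · intro y hy hzy
        by_cases hyv : y = v
        · exact Or.inl hyv
        · exact Or.inr ((hmemB y).1 (Finset.mem_erase.2 ⟨hyv, Finset.mem_filter.2 ⟨hy, hzy⟩⟩))
    · have h3z := hdv z hzW hza hzb
      have hA : ((W.filter (Q.Adj z)).erase v) ⊆
          ((W.erase v).filter ((addN Q v w).Adj z)) := by
        intro y hy
        rw [Finset.mem_erase, Finset.mem_filter] at hy
        rw [Finset.mem_filter, Finset.mem_erase]
        exact ⟨⟨hy.1, hy.2.1⟩, Or.inl hy.2.2⟩
      have hzv' : Q.Adj z v := by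
        by_contra hcon
        have : ((W.filter (Q.Adj z)).erase v) = (W.filter (Q.Adj z)) := by
          apply Finset.erase_eq_of_notMem
          rw [Finset.mem_filter]
          exact fun h => hcon h.2
        rw [this] at hA
        have := Finset.card_le_card hA
        omega
      have hcE : ((W.filter (Q.Adj z)).erase v).card + 1 =
          (W.filter (Q.Adj z)).card :=
        Finset.card_erase_add_one (Finset.mem_filter.2 ⟨hv, hzv'⟩)
      refine ⟨z, hzW, hza, hzb, hzv', ?_, ?_⟩
      · by_contra hcon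
        have hins : insert w ((W.filter (Q.Adj z)).erase v) ⊆
            ((W.erase v).filter ((addN Q v w).Adj z)) := by
          intro y hy
          rcases Finset.mem_insert.1 hy with h | h
          · subst h
            rw [Finset.mem_filter, Finset.mem_erase]
            exact ⟨⟨hvw.ne', hw⟩, Or.inr (Or.inr ⟨rfl, hzw, hzv'.symm⟩)⟩
          · exact hA h
        have hnot : w ∉ ((W.filter (Q.Adj z)).erase v) := by
          rw [Finset.mem_erase, Finset.mem_filter]
          exact fun h => hcon h.2.2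
        have := Finset.card_le_card hins
        rw [Finset.card_insert_of_notMem hnot] at this
        omega
      · have := Finset.card_le_card hA
        omega
  -- conclusion
  obtain ⟨v, hv, hva, hvb⟩ := hne
  have h3 : 3 ≤ (W.filter (Q.Adj v)).card := by
    have := hdeg v hv hva hvb
    rw [low_iff_card] at this
    omega
  obtain ⟨w, hw⟩ : (W.filter (Q.Adj v)).Nonempty := by
    rw [← Finset.card_pos]; omega
  rw [Finset.mem_filter] at hw
  obtain ⟨z, hz, hza, hzb, hzv, hzw, hz3⟩ := hI v hv hva hvb w hw.1 hw.2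
  -- the third neighbour of z
  have hvw' : v ≠ w := hw.2.ne
  have hex : ∃ t ∈ (W.filter (Q.Adj z)), t ∉ ({v, w} : Finset V) := by
    by_contra hcon
    push Not at hcon
    have h4 := Finset.card_le_card (fun t ht => hcon t ht :
      (W.filter (Q.Adj z)) ⊆ ({v, w} : Finset V))
    have h5 : ({v, w} : Finset V).card ≤ 2 := Finset.card_le_two
    omega
  obtain ⟨t, ht, htvw⟩ := hex
  rw [Finset.mem_filter] at ht
  simp only [Finset.mem_insert, Finset.mem_singleton, not_or] at htvw
  have three : ∀ r x y k, r ∈ W → x ∈ W → y ∈ W → k ∈ W → x ≠ y → x ≠ k → y ≠ k →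
      Q.Adj r x → Q.Adj r y → Q.Adj r k → (W.filter (Q.Adj r)).card = 3 →
      ∀ l ∈ W, Q.Adj r l → l = x ∨ l = y ∨ l = k := by
    intro r x y k _ hx hy hk hxy hxk hyk h1 h2 h3' hc l hl hrl
    have hsub : ({x, y, k} : Finset V) ⊆ (W.filter (Q.Adj r)) := by
      intro l' hl'
      simp only [Finset.mem_insert, Finset.mem_singleton] at hl'
      rw [Finset.mem_filter]
      rcases hl' with h | h | h
      · subst h; exact ⟨hx, h1⟩
      · subst h; exact ⟨hy, h2⟩
      · subst h; exact ⟨hk, h3'⟩
    have hc3 : ({x, y, k} : Finset V).card = 3 := Finset.card_eq_three.2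
      ⟨x, y, k, hxy, hxk, hyk, rfl⟩
    have he := Finset.eq_of_subset_of_card_le hsub (by omega)
    have : l ∈ ({x, y, k} : Finset V) := by
      rw [he, Finset.mem_filter]
      exact ⟨hl, hrl⟩
    simpa using this
  obtain ⟨z', hz', hza', hzb', hz'z, hz't, hz'3⟩ := hI z hz hza hzb t ht.1 ht.2
  have hNz := three z v w t hz hv hw.1 ht.1 hvw' (fun h => htvw.1 h.symm)
    (fun h => htvw.2 h.symm) hzv hzw ht.2 hz3
  rcases hNz z' hz' hz'z.symm with h | h | h
  · subst h
    have hNv := three z' z w t hz' hz hw.1 ht.1 hzw.ne ht.2.ne (fun h => htvw.2 h.symm)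
      hz'z hw.2 hz't hz'3
    refine hII z z' w t hz hz' hza hzb hva hvb hzv hw.1 ht.1 (fun h => htvw.2 h.symm) hzw ht.2
      hw.2 hz't hNz hNv
  · subst h
    have hNw := three z' z v t hz' hz hv ht.1 hzv.ne ht.2.ne (fun h => htvw.1 h.symm)
      hz'z hw.2.symm hz't hz'3
    refine hII z z' v t hz hz' hza hzb hza' hzb' hzw hv ht.1 (fun h => htvw.1 h.symm) hzv ht.2
      hw.2.symm hz't ?_ hNw
    intro y hy h
    rcases hNz y hy h with h | h | h
    · exact Or.inr (Or.inl h)
    · exact Or.inl h
    · exact Or.inr (Or.inr h)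
  · subst h
    exact absurd rfl hz't.ne

theorem gLEMD : Goals.LEMD := by
  intro V _ Q W a b ha hb hab hne hdeg
  exact lemD_aux W.card Q W a b rfl ha hb hab hne hdeg

end NApexGraphs.Dom.Helper68
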