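import Pool.Agent.Helper68.Dom.LEMD

/-!
# Project DOM: assembly
-/

namespace NApexGraphs.Dom.Helper68

open SimpleGraph NApexGraphs NApexGraphs.Dom NApexGraphs.Dom.Goals

theorem dominating (hset : SETG) (hA : CASEA) (hB : CASEB) (hF : FIN) (hS : SPAN) (hT : TOPM)
    (hK : KM331) (h5 : ORD5) (n : ℕ) (hn : 1 ≤ n) (V : Type) [Finite V] (G : SimpleGraph V)
    (hG : MinMinimal n G) (hu : ∃ u, ∀ v, v ≠ u → G.Adj u v) :
    Nonempty (G ≃g (⊤ : SimpleGraph (Fin (n + 5)))) ∨ Nonempty (G ≃g K331 n) := by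
  classical
  obtain ⟨u, hu⟩ := hu
  have hst := hset V G n u hG hu
  by_cases hdeg : ∀ x, x ≠ u → n + 4 ≤ (G.neighborSet x).ncard
  · left
    have hcomp := hA V G n u hst hdeg
    by_cases hcard : Nat.card V ≤ n + 5
    · exact h5 V G n hG hcard
    · have : Fintype V := Fintype.ofFinite V
      rw [Nat.card_eq_fintype_card] at hcard
      have hle : Fintype.card (Fin (n + 5)) ≤ Fintype.card V := by
        rw [Fintype.card_fin]; omega
      obtain ⟨f⟩ := Function.Embedding.nonempty_of_card_le hle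
      have hm : IsMinor (⊤ : SimpleGraph (Fin (n + 5))) G :=
        isMinor_of_injective f f.injective fun k l h => hcomp _ _ fun he => h (f.injective he)
      obtain ⟨e⟩ := hS V (Fin (n + 5)) G ⊤ n hG (hT n).1 hm
      exact ⟨e.symm⟩
  · right
    push Not at hdeg
    obtain ⟨x, hxu, hx⟩ := hdeg
    obtain ⟨y, z, N, hfin⟩ := hB V G n u x hst hxu (by omega)
    obtain ⟨f, hf⟩ := hF V G n u x y z N hn hst hfin
    have hm : IsMinor (K331 n) G := isMinor_of_injective f f.injective hf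
    obtain ⟨e⟩ := hS V _ G (K331 n) n hG (hK n).1 hm
    exact ⟨e.symm⟩

theorem small_order (h5 : ORD5) (h6 : ORD6) (n : ℕ) (hn : 1 ≤ n) (V : Type) [Finite V]
    (G : SimpleGraph V) (hG : MinMinimal n G) (hc : Nat.card V ≤ n + 6) :
    Nonempty (G ≃g (⊤ : SimpleGraph (Fin (n + 5)))) ∨ Nonempty (G ≃g K331 n) ∨
      Nonempty (G ≃g KY n) := by
  by_cases h : Nat.card V ≤ n + 5
  · exact Or.inl (h5 V G n hG h)
  · exact Or.inr (h6 V G n hn hG (by omega))

end NApexGraphs.Dom.Helper68
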