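import Pool.Agent.Helper68.Dom.Goals

/-!
# TOPM: the complete graph on `n + 5` vertices is minor-minimal non-`n`-apex
-/

namespace NApexGraphs.Dom.Helper68

open SimpleGraph NApexGraphs NApexGraphs.Dom

theorem gTOPM : Goals.TOPM := by
  classical
  intro n
  refine minMinimal_of_edges _ n ?_ ?_ ?_
  · rintro ⟨X, hX, hP⟩
    apply hP.1
    have hc : 5 ≤ (Xᶜ).card := by
      rw [Finset.card_compl, Fintype.card_fin]
      omega
    obtain ⟨S, hS, hS5⟩ := Finset.exists_subset_card_eq hc
    let e : Fin 5 ≃ S := (finCongr hS5.symm).trans S.equivFin.symm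
    have hmem : ∀ i, ((e i).1 : Fin (n + 5)) ∈ ((X : Set (Fin (n + 5)))ᶜ) := by
      intro i
      have := hS (e i).2
      rw [Finset.mem_compl] at this
      exact fun h => this h
    refine isMinor_of_injective (fun i => ⟨(e i).1, hmem i⟩) ?_ ?_
    · intro i j hij
      have h1 : ((e i).1 : Fin (n + 5)) = (e j).1 := by
        have := (Subtype.mk.injEq _ _ _ _).mp hij
        exact this
      exact e.injective (Subtype.ext h1)
    · intro i j hij
      rw [SimpleGraph.comap_adj]
      intro h
      have h1 : ((e i).1 : Fin (n + 5)) = (e j).1 := h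
      exact hij.ne (e.injective (Subtype.ext h1))
  · intro v
    by_cases hv : v = 0
    · refine ⟨1, ?_⟩
      rw [SimpleGraph.top_adj, hv]
      intro h
      have := congrArg Fin.val h
      simp at this
    · exact ⟨0, hv⟩
  · intro x y hxy
    have hxy' : x ≠ y := hxy
    have hc : 3 ≤ ((({x, y} : Finset (Fin (n + 5)))ᶜ).card) := by
      rw [Finset.card_compl, Fintype.card_fin, Finset.card_pair hxy']
      omega
    obtain ⟨S, hS, hS3⟩ := Finset.exists_subset_card_eq hc
    have hd : Disjoint ({x, y} : Finset (Fin (n + 5))) S := by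
      rw [Finset.disjoint_right]
      intro a ha
      exact Finset.mem_compl.1 (hS ha)
    set Z : Finset (Fin (n + 5)) := {x, y} ∪ S with hZdef
    have hZ : Z.card = 5 := by
      rw [hZdef, Finset.card_union_of_disjoint hd, Finset.card_pair hxy', hS3]
    have hxZ : x ∈ Z := by simp [hZdef]
    have hyZ : y ∈ Z := by simp [hZdef]
    have hsub : ∀ T : Set (Fin (n + 5)), T ⊆ ((Zᶜ : Finset (Fin (n + 5))) : Set (Fin (n + 5)))ᶜ →
        ∀ a ∈ T, a ∈ Z := by
      intro T hT a ha
      have := hT ha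
      simp only [Finset.coe_compl, compl_compl] at this
      exact this
    refine ⟨Zᶜ, ?_, ⟨?_, ?_⟩, ?_, ?_⟩
    · rw [Finset.card_compl, Fintype.card_fin, hZ]
      omega
    · intro B hB hs
      have hB' := (isModel_iff _ _ _).1 hB
      have hC : Z.card ≤ Fintype.card (Fin 5) := by simp [hZ]
      have hm : ∀ k, ∃ v ∈ Z, v ∈ B k := by
        intro k
        obtain ⟨v, hv⟩ := (hB'.1 k).1
        exact ⟨v, hsub _ (hs k) v hv, hv⟩
      obtain ⟨kx, hkx⟩ := meet_all hB'.2.1 hC hm hxZ
      obtain ⟨ky, hky⟩ := meet_all hB'.2.1 hC hm hyZ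
      have hne : kx ≠ ky := by
        rintro rfl
        exact hxy' (meet_unique hB'.2.1 hC hm hxZ hyZ hkx hky)
      obtain ⟨a, ha, b, hb, hab⟩ := hB'.2.2 kx ky hne
      have e1 : a = x := meet_unique hB'.2.1 hC hm (hsub _ (hs kx) a ha) hxZ ha hkx
      have e2 : b = y := meet_unique hB'.2.1 hC hm (hsub _ (hs ky) b hb) hyZ hb hky
      rw [e1, e2, SimpleGraph.deleteEdges_adj] at hab
      exact hab.2 rfl
    · intro B hB hs k hxk hyk
      have hB' := (isModel_iff _ _ _).1 hB
      have hC : Z.card ≤ Fintype.card (Fin 5) := by simp [hZ]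
      have hm : ∀ k, ∃ v ∈ Z, v ∈ B k := by
        intro k
        obtain ⟨v, hv⟩ := (hB'.1 k).1
        exact ⟨v, hsub _ (hs k) v hv, hv⟩
      exact hxy' (meet_unique hB'.2.1 hC hm hxZ hyZ hxk hyk)
    · intro B hB hs
      have hB' := (isModel_iff _ _ _).1 hB
      have := card_meet_le hB'.2.1 Z Finset.univ (fun k _ => by
        obtain ⟨v, hv⟩ := (hB'.1 k).1
        exact ⟨v, hsub _ (hs k) v hv, hv⟩)
      rw [hZ] at this
      simp at this
    · intro B hB hs k hxk hyk
      have hB' := (isModel_iff _ _ _).1 hB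
      have := card_meet_le hB'.2.1 Z Finset.univ (fun k _ => by
        obtain ⟨v, hv⟩ := (hB'.1 k).1
        exact ⟨v, hsub _ (hs k) v hv, hv⟩)
      rw [hZ] at this
      simp at this

end NApexGraphs.Dom.Helper68
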